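import Pool.Agent.H500.HC.Stm2

set_option autoImplicit false
set_option linter.unusedSectionVars false

/-!
# Project HC, part G2: two places
-/

namespace Pool.Agent.H721.HC.Chi

open NumberField IsDedekindDomain Filter Topology Polynomial
open Pool.Agent.H500.HC

section basics

variable {E : Type} [Field E] [NumberField E]

/-- integers represent all the classes modulo a place of degree one -/
theorem int_surj {lam : HeightOneSpectrum (𝓞 E)} {l : ℕ} (hl : l.Prime)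
    (hn : Ideal.absNorm lam.asIdeal = l) (x : 𝓞 E) : ∃ c : ℤ, x - c ∈ lam.asIdeal := by
  have hcard : Nat.card (𝓞 E ⧸ lam.asIdeal) = l := by
    rw [← hn, Ideal.absNorm_apply, Submodule.cardQuot_apply]
  have : Fact l.Prime := ⟨hl⟩
  have h1 : (1 : 𝓞 E ⧸ lam.asIdeal) ≠ 0 := by
    intro h
    apply lam.isPrime.ne_top
    rw [Ideal.eq_top_iff_one, ← Ideal.Quotient.eq_zero_iff_mem, map_one]
    exact h
  have h2 := mem_zmultiples_of_prime_card hcard h1 (g' := Ideal.Quotient.mk lam.asIdeal x)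
  obtain ⟨c, hc⟩ := AddSubgroup.mem_zmultiples_iff.1 h2
  refine ⟨c, ?_⟩
  rw [← Ideal.Quotient.eq_zero_iff_mem, map_sub, ← hc, map_intCast, zsmul_eq_mul, mul_one,
    sub_self]

end basics

section loc

variable {K E : Type} [Field K] [NumberField K] [Field E] [NumberField E]
  {j : E →+* QBar} {N n : ℕ} {α : HeightOneSpectrum (𝓞 K) → Fin n → ZBar}
  {lam : HeightOneSpectrum (𝓞 E)}

/-- the embedding of the prime field -/
noncomputable def cm (L : Loc j N n α lam) : ZMod L.l →+* L.k :=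
  letI := L.charP
  ZMod.castHom (dvd_refl L.l) L.k

theorem psi_int (L : Loc j N n α lam) {x : 𝓞 E} {c : ℤ} (h : x - c ∈ lam.asIdeal) :
    L.ψ (jz j x) = cm L (c : ZMod L.l) := by
  have h1 := (L.mem_iff _).1 h
  rw [map_sub, map_sub, map_intCast, map_intCast, sub_eq_zero] at h1
  rw [h1, map_intCast]

/-- the class of `x` modulo `lam` -/
theorem exists_unit (L : Loc j N n α lam) {x : 𝓞 E} (hx : x ∉ lam.asIdeal) :
    ∃ u : (ZMod L.l)ˣ, L.ψ (jz j x) = cm L u := by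
  have : Fact L.l.Prime := ⟨L.hl⟩
  obtain ⟨c, hc⟩ := int_surj L.hl L.hnorm x
  have h1 := psi_int L hc
  have h2 : (c : ZMod L.l) ≠ 0 := by
    intro h0
    apply hx
    rw [L.mem_iff, h1, h0, map_zero]
  exact ⟨Units.mk0 _ h2, h1⟩

theorem psi_typ (L : Loc j N n α lam) (t : (K →+* E) → ℕ) (x : 𝓞 K) :
    L.ψ (jz j (typ t x)) = ∏ σ, L.ψ (jz j (em σ x)) ^ t σ := by
  unfold typ
  rw [map_prod, map_prod]
  refine Finset.prod_congr rfl fun σ _ => ?_
  rw [map_pow, map_pow]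

/-- the place with two sets of local data: the roots in characteristic zero -/
theorem alpha_eq (hN : 0 < N) {h : ℕ} (hh : 0 < h) {P : HeightOneSpectrum (𝓞 K) → (𝓞 E)[X]}
    (hP : ∀ v : HeightOneSpectrum (𝓞 K), (N : 𝓞 K) ∉ v.asIdeal →
      (P v).map (jz j) = ∏ i, (X - Polynomial.C (α v i)))
    {t : Fin n → (K →+* E) → ℕ} (ht : TypN j N n h α t) (L : Loc j N n α lam)
    (hbig : 2 * (n * Module.finrank ℚ E) < L.l) {v : HeightOneSpectrum (𝓞 K)} {y : 𝓞 K}
    (hv : v.asIdeal = Ideal.span {y}) (hNv : (N : 𝓞 K) ∉ v.asIdeal)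
    (hlv : (L.l : 𝓞 K) ∉ v.asIdeal) (hy : InRay (N * L.l) y) :
    ∃ π : Equiv.Perm (Fin n), ∀ i, α v (π i) = jz j (typ (t i) y) := by
  obtain ⟨π, hπ⟩ := ht v hNv
  refine ⟨π, fun i => ?_⟩
  have hyN : InRay N y := hy.mono (Dvd.intro _ rfl)
  obtain ⟨m, hm, hpow⟩ := hπ i (y ^ h) (hyN.pow h) (by rw [hv, Ideal.span_singleton_pow])
  rw [typ_pow, map_pow, ← pow_mul] at hpow
  have hz0 : jz j (typ (t i) y) ≠ 0 := fun h0 =>
    typ_ne_zero (t i) hy.1 (jz_inj j (h0.trans (map_zero _).symm))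
  have hhm : 0 < h * m := Nat.mul_pos hh hm
  obtain ⟨ζ, hζ, hαζ⟩ := exists_ratio hhm hz0 hpow
  -- reduction
  have hψα : L.ψ (α v (π i)) = 1 := by
    obtain ⟨π', hπ'⟩ := L.hroots v hNv hlv
    have h1 := hπ' (π'.symm (π i))
    rw [Equiv.apply_symm_apply] at h1
    rw [h1, hv]
    exact (L.hray _).ray y hy
  have hψz : L.ψ (jz j (typ (t i) y)) = 1 := by
    rw [psi_typ]
    refine Finset.prod_eq_one fun σ _ => ?_
    have h1 : (L.l : 𝓞 K) ∣ y - 1 := dvd_trans (by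
      rw [Nat.cast_mul]
      exact Dvd.intro_left _ rfl) hy.2.1
    have h2 := L.em_congr h1 σ
    rw [em_one] at h2
    have h3 := psi_int L (c := 1) (by rw [Int.cast_one]; exact h2)
    rw [h3, Int.cast_one, map_one, one_pow]
  have hψζ : L.ψ ζ = 1 := by
    have h1 := congrArg L.ψ hαζ
    rwa [map_mul, hψα, hψz, mul_one, eq_comm] at h1
  -- the degree
  have hdeg : (minpoly ℚ (ζ : QBar)).natDegree ≤ n * Module.finrank ℚ E := by
    set f : E[X] := (P v).map (algebraMap (𝓞 E) E) with hf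
    have hfj : f.map j = (∏ i, (X - Polynomial.C (α v i))).map (algebraMap ZBar QBar) := by
      rw [← hP v hNv, hf, Polynomial.map_map, Polynomial.map_map]
      rfl
    have hfj2 : f.map j = ∏ i, (X - Polynomial.C ((algebraMap ZBar QBar) (α v i))) := by
      rw [hfj, Polynomial.map_prod]
      refine Finset.prod_congr rfl fun i _ => ?_
      rw [Polynomial.map_sub, Polynomial.map_X, Polynomial.map_C]
    have hfn : f.natDegree = n := by
      have h1 : (f.map j).natDegree = n := by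
        rw [hfj2, natDegree_prod_of_monic _ _ fun i _ => monic_X_sub_C _]
        simp
      rwa [natDegree_map] at h1
    have hf0 : f ≠ 0 := by
      intro h0
      have h1 : f.map j ≠ 0 := by
        rw [hfj2]
        exact Finset.prod_ne_zero_iff.2 fun i _ => X_sub_C_ne_zero _
      rw [h0, Polynomial.map_zero] at h1
      exact h1 rfl
    have hroot : (f.map j).eval (algebraMap ZBar QBar (α v (π i))) = 0 := by
      rw [hfj2, eval_prod]
      exact Finset.prod_eq_zero (Finset.mem_univ (π i)) (by simp)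
    obtain ⟨F, _, _, ι, e, h1, h2, a, ha⟩ := deg_adj j f hf0 hroot
    have h3 : (ζ : QBar) = ι (a / e ((typ (t i) y : 𝓞 E) : E)) := by
      have h4 : ι (e ((typ (t i) y : 𝓞 E) : E)) = algebraMap ZBar QBar (jz j (typ (t i) y)) := by
        have : ι (e ((typ (t i) y : 𝓞 E) : E)) = (ι.comp e) ((typ (t i) y : 𝓞 E) : E) := rfl
        rw [this, h2]
        rfl
      rw [map_div₀, ha, h4, hαζ, map_mul]
      have h5 : algebraMap ZBar QBar (jz j (typ (t i) y)) ≠ 0 := fun h0 =>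
        hz0 (zq_inj (h0.trans (map_zero _).symm))
      rw [mul_div_assoc, div_self h5, mul_one]
    rw [h3]
    refine (deg_el ι _).trans (h1.trans ?_)
    rw [hfn]
  have hone := ru_one L.ψ L.hl L.hlk hbig hdeg hhm hζ hψζ
  rw [hαζ, hone, one_mul]

end loc

section dir

variable {K E : Type} [Field K] [NumberField K] [Field E] [NumberField E]
  {j : E →+* QBar} {N n : ℕ} {α : HeightOneSpectrum (𝓞 K) → Fin n → ZBar}
  {lam lam' : HeightOneSpectrum (𝓞 E)}

theorem not_mem_of_lt {v : HeightOneSpectrum (𝓞 K)} (hv : (Ideal.absNorm v.asIdeal).Prime) {a : ℕ}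
    (ha : 0 < a) (h : a < Ideal.absNorm v.asIdeal) : (a : 𝓞 K) ∉ v.asIdeal := by
  intro h1
  have h2 := (natCast_mem_iff_dvd hv (norm_mem v)).1 h1
  exact absurd (Nat.le_of_dvd ha h2) (not_le.2 h)

/-- primes with prescribed residues -/
theorem exists_prime (hDir : S_Dir) (hN : 0 < N) (L : Loc j N n α lam) {l' : ℕ} (hl' : l'.Prime)
    (hne : L.l ≠ l')
    (hc1 : ∀ x : 𝓞 K, (∀ σ : K →+* E, em σ x ∈ lam.asIdeal) → (L.l : 𝓞 K) ∣ x)
    (hc2 : ∀ M : ℕ, 0 < M → ¬ L.l ∣ M → ∀ g : (K →+* E) → ℤ,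
      ∃ y : 𝓞 K, InRay M y ∧ ∀ σ, em σ y - (g σ : 𝓞 E) ∈ lam.asIdeal)
    (g : (K →+* E) → (ZMod L.l)ˣ) :
    ∃ (v : HeightOneSpectrum (𝓞 K)) (y : 𝓞 K), v.asIdeal = Ideal.span {y} ∧
      (N : 𝓞 K) ∉ v.asIdeal ∧ (L.l : 𝓞 K) ∉ v.asIdeal ∧ (l' : 𝓞 K) ∉ v.asIdeal ∧
      InRay (N * l') y ∧ ∀ σ, L.ψ (jz j (em σ y)) = cm L (g σ : ZMod L.l) := by
  have : Fact L.l.Prime := ⟨L.hl⟩
  have hM0 : 0 < N * l' := Nat.mul_pos hN hl'.pos
  have hM1 : ¬ L.l ∣ N * l' := by
    intro h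
    rcases (L.hl.dvd_mul).1 h with h1 | h1
    · exact L.hlN h1
    · exact hne ((Nat.prime_dvd_prime_iff_eq L.hl hl').1 h1)
  obtain ⟨y0, hy0, hy0g⟩ := hc2 (N * l') hM0 hM1 fun σ => ((g σ : ZMod L.l).val : ℤ)
  obtain ⟨z, -, hzg⟩ := hc2 (N * l') hM0 hM1 fun σ => (((g σ)⁻¹ : (ZMod L.l)ˣ) : ZMod L.l).val
  have hval : ∀ u : ZMod L.l, (((u.val : ℕ) : ℤ) : ZMod L.l) = u := fun u => by
    rw [Int.cast_natCast, ZMod.natCast_zmod_val]
  have hy0ψ : ∀ σ, L.ψ (jz j (em σ y0)) = cm L (g σ : ZMod L.l) := fun σ => by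
    rw [psi_int L (hy0g σ), hval]
  have hzψ : ∀ σ, L.ψ (jz j (em σ z)) = cm L (((g σ)⁻¹ : (ZMod L.l)ˣ) : ZMod L.l) := fun σ => by
    rw [psi_int L (hzg σ), hval]
  have hdvd : (L.l : 𝓞 K) ∣ y0 * z - 1 := by
    refine hc1 _ fun σ => ?_
    have e : em σ (y0 * z - 1) = em σ y0 * em σ z - 1 := by
      rw [← em_mul]
      exact (map_sub (RingOfIntegers.mapRingHom σ) _ _).trans (congrArg _ (map_one _))
    rw [L.mem_iff, e, map_sub, map_sub, map_mul, map_mul, map_one, map_one,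
      hy0ψ, hzψ, ← map_mul, Units.mul_inv, map_one, sub_self]
  have hcop : IsCoprime (Ideal.span {y0}) (Ideal.span {((N * l' * L.l : ℕ) : 𝓞 K)}) := by
    rw [Ideal.isCoprime_span_singleton_iff, Nat.cast_mul]
    refine IsCoprime.mul_right ?_ ?_
    · obtain ⟨w, hw⟩ := hy0.2.1
      exact ⟨1, -w, by linear_combination hw⟩
    · obtain ⟨w, hw⟩ := hdvd
      exact ⟨z, -w, by linear_combination hw⟩
  obtain ⟨v, y, hv, hyd, hypos, hvp, hvB⟩ := hDir K (N * l' * L.l) y0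
    (Nat.mul_pos hM0 L.hl.pos) hcop (N + L.l + l')
  have hy0' : y ≠ 0 := by
    rintro rfl
    apply v.ne_bot
    rw [hv]
    simp
  refine ⟨v, y, hv, not_mem_of_lt hvp hN (by omega), not_mem_of_lt hvp L.hl.pos (by omega),
    not_mem_of_lt hvp hl'.pos (by omega), ⟨hy0', ?_, hypos⟩, fun σ => ?_⟩
  · have h1 : ((N * l' : ℕ) : 𝓞 K) ∣ y - y0 := dvd_trans (by
      rw [Nat.cast_mul (N * l')]
      exact Dvd.intro _ rfl) hyd
    have h2 := dvd_add h1 hy0.2.1
    rwa [sub_add_sub_cancel] at h2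
  · have h1 : (L.l : 𝓞 K) ∣ y - y0 := dvd_trans (by
      rw [Nat.cast_mul (N * l')]
      exact Dvd.intro_left _ rfl) hyd
    have h2 := (L.mem_iff _).1 (L.em_congr h1 σ)
    rw [map_sub, map_sub, sub_eq_zero] at h2
    rw [h2, hy0ψ]

/-- a place with large residue characteristic -/
theorem exists_large {S : Set (HeightOneSpectrum (𝓞 E))} (hS : S.Infinite) (C : ℕ) :
    ∃ lam ∈ S, ∀ l : ℕ, Ideal.absNorm lam.asIdeal = l → l.Prime → C < l := by
  have hb : ((C.factorial : ℕ) : 𝓞 E) ≠ 0 := Nat.cast_ne_zero.2 C.factorial_ne_zero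
  have hfin := Pool.Agent.H500.Kum.fin_mem hb
  obtain ⟨lam, hlam, hnot⟩ := (hS.sdiff hfin).nonempty
  refine ⟨lam, hlam, fun l hl hlp => ?_⟩
  by_contra hle
  push Not at hle
  apply hnot
  show ((C.factorial : ℕ) : 𝓞 E) ∈ lam.asIdeal
  have h1 : (l : 𝓞 E) ∈ lam.asIdeal := by
    rw [← hl]
    exact norm_mem lam
  exact (natCast_mem_iff_dvd hlp h1).2 (Nat.dvd_factorial hlp.pos hle)

end dir

/-- the character `g ↦ ∏ (g σ)^{a σ}` -/
noncomputable def chr {I k : Type} [Fintype I] [Field k] {l : ℕ} (c : ZMod l →+* k) (a : I → ℕ) :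
    (I → (ZMod l)ˣ) →* k where
  toFun g := ∏ σ, c (g σ : ZMod l) ^ a σ
  map_one' := by
    refine Finset.prod_eq_one fun σ _ => ?_
    rw [Pi.one_apply, Units.val_one, map_one, one_pow]
  map_mul' g g' := by
    rw [← Finset.prod_mul_distrib]
    refine Finset.prod_congr rfl fun σ _ => ?_
    rw [Pi.mul_apply, Units.val_mul, map_mul, mul_pow]

theorem main : S_Crt → S_Dir → S_Chars → S_Chi := by
  intro hCrt hDir hChars K E _ _ _ _ hcard j N n h hN hh P α hP hinf t ht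
  obtain ⟨B0, hB0⟩ := hCrt K E hcard
  refine ⟨max B0 n, fun lam L hL => ?_⟩
  have hlB : B0 < L.l := lt_of_le_of_lt (le_max_left _ _) hL
  have hln : n < L.l := lt_of_le_of_lt (le_max_right _ _) hL
  have : Fact L.l.Prime := ⟨L.hl⟩
  obtain ⟨hc1, hc2⟩ := hB0 lam (by rw [L.hnorm]; exact L.hl) (by rw [L.hnorm]; exact hlB)
  rw [L.hnorm] at hc1 hc2
  obtain ⟨lam', ⟨L'⟩, hlarge⟩ := exists_large hinf (max L.l (2 * (n * Module.finrank ℚ E)))
  have hl' := hlarge L'.l L'.hnorm L'.hl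
  have hne : L.l ≠ L'.l := (lt_of_le_of_lt (le_max_left _ _) hl').ne
  have hbig : 2 * (n * Module.finrank ℚ E) < L'.l := lt_of_le_of_lt (le_max_right _ _) hl'
  obtain ⟨π, hπ⟩ := hChars ((K →+* E) → (ZMod L.l)ˣ) L.k n
    (fun i => chr (cm L) (L.a i)) (fun i => chr (cm L) (t i)) (by
      intro p hp hpk
      have hch := L.charP
      have h1 := (CharP.cast_eq_zero_iff L.k L.l p).1 hpk
      rw [(Nat.prime_dvd_prime_iff_eq L.hl hp).1 h1] at hln
      exact hln) (by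
      intro g
      obtain ⟨v, y, hv, hNv, hlv, hlv', hy, hyg⟩ := exists_prime hDir hN L L'.hl hne hc1 hc2 g
      have hyN : InRay N y := hy.mono (Dvd.intro _ rfl)
      obtain ⟨π0, hπ0⟩ := alpha_eq hN hh hP ht L' hbig hv hNv hlv' hy
      obtain ⟨π1, hπ1⟩ := L.hroots v hNv hlv
      have hnotin : ∀ σ, em σ y ∉ lam.asIdeal := by
        intro σ hσ
        have h1 := (L.mem_iff _).1 hσ
        rw [hyg σ, map_eq_zero_iff _ (cm L).injective] at h1
        exact (g σ).ne_zero h1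
      have e1 : ∀ i, chr (cm L) (L.a i) g = L.ψ (α v (π1 i)) := by
        intro i
        rw [hπ1 i, hv, L.hexp i y hyN hnotin]
        refine Finset.prod_congr rfl fun σ _ => ?_
        rw [hyg σ]
      have e2 : ∀ i, chr (cm L) (t i) g = L.ψ (α v (π0 i)) := by
        intro i
        rw [hπ0 i, psi_typ]
        refine Finset.prod_congr rfl fun σ _ => ?_
        rw [hyg σ]
      simp only [e1, e2]
      rw [Equiv.prod_comp π1 fun i => X - Polynomial.C (L.ψ (α v i)),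
        Equiv.prod_comp π0 fun i => X - Polynomial.C (L.ψ (α v i))])
  refine ⟨π, fun i x hx hσ => ?_⟩
  choose g hg using fun σ => exists_unit L (hσ σ)
  have h1 := DFunLike.congr_fun (hπ i) g
  rw [L.hexp i x hx hσ, psi_typ]
  simp only [hg]
  exact h1

end Pool.Agent.H721.HC.Chi
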